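import Pool.Agent.W201.NT.StmT

/-! Project NT, part TW: without elements of order two the mod 2 Betti numbers are at most the
real ones. -/

set_option autoImplicit false

open Finsupp

namespace Pool.Agent.W138.NT.TW

open Pool.Agent.Helper381 Pool.Agent.W201.NT

section

variable {R S T : Type} [CommRing R] [CommRing S]

/-- change of coefficients -/
noncomputable def cc (φ : R →+ S) : (T →₀ R) →+ (T →₀ S) := Finsupp.mapRange.addMonoidHom φ

lemma cc_apply (φ : R →+ S) (x : T →₀ R) (t : T) : cc φ x t = φ (x t) := rfl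

lemma cc_single (φ : R →+ S) (t : T) (r : R) : cc φ (single t r) = single t (φ r) := by
  classical
  ext u
  rw [cc_apply, single_apply, single_apply]
  split_ifs <;> simp

lemma bd_single_gen {X : Type} [TopologicalSpace X] (n : ℕ) (σ : Sing X (n + 1)) (r : R) :
    bdR R X n (single σ r) = ∑ i : Fin (n + 2), single (sface n i σ) (r * (-1) ^ (i : ℕ)) := by
  rw [bdR, Finsupp.linearCombination_single, Finset.smul_sum]
  apply Finset.sum_congr rfl
  intro i _
  rw [smul_smul, smul_single, smul_eq_mul, mul_one]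

lemma bd_cc {X : Type} [TopologicalSpace X] (φ : R →+ S) (n : ℕ) (x : Sing X (n + 1) →₀ R) :
    bdR S X n (cc φ x) = cc φ (bdR R X n x) := by
  induction x using Finsupp.induction_linear with
  | zero => simp
  | add f g hf hg => rw [map_add, map_add, hf, hg, map_add, map_add]
  | single σ r =>
    rw [cc_single, bd_single_gen, bd_single_gen, map_sum]
    apply Finset.sum_congr rfl
    intro i _
    rw [cc_single]
    congr 1
    rcases Nat.even_or_odd (i : ℕ) with h | h
    · rw [h.neg_one_pow, h.neg_one_pow, mul_one, mul_one]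
    · rw [h.neg_one_pow, h.neg_one_pow, mul_neg_one, mul_neg_one, map_neg]

end

/-- reduction modulo 2 -/
noncomputable abbrev c2 : ℤ →+ ZMod 2 := Int.castAddHom (ZMod 2)

lemma c2_surj {T : Type} (z : T →₀ ZMod 2) : ∃ y : T →₀ ℤ, cc c2 y = z := by
  refine ⟨Finsupp.mapRange (fun a : ZMod 2 => (a.val : ℤ)) (by simp) z, ?_⟩
  ext t
  rw [cc_apply, Finsupp.mapRange_apply]
  simp

lemma c2_ker {T : Type} (x : T →₀ ℤ) (h : cc c2 x = 0) : ∃ w : T →₀ ℤ, x = (2:ℤ) • w := by
  refine ⟨Finsupp.mapRange (fun a : ℤ => a / 2) (by simp) x, ?_⟩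
  ext t
  rw [Finsupp.smul_apply, Finsupp.mapRange_apply, smul_eq_mul]
  have h1 := DFunLike.congr_fun h t
  rw [cc_apply] at h1
  have h2 : ((x t : ℤ) : ZMod 2) = 0 := h1
  rw [ZMod.intCast_zmod_eq_zero_iff_dvd] at h2
  have h3 : (2:ℤ) ∣ x t := by exact_mod_cast h2
  omega

lemma lift_cycle {X : Type} [TopologicalSpace X] (h : NT2 X) (n : ℕ) (z : Sing X n →₀ ZMod 2)
    (hz : z ∈ Cyc (ZMod 2) X n) : ∃ y ∈ Cyc ℤ X n, cc c2 y = z := by
  obtain ⟨y₀, hy₀⟩ := c2_surj z
  rcases n with _ | n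
  · exact ⟨y₀, Submodule.mem_top, hy₀⟩
  have hz' : bdR (ZMod 2) X n z = 0 := hz
  have h1 : cc c2 (bdR ℤ X n y₀) = 0 := by rw [← bd_cc, hy₀, hz']
  obtain ⟨w, hw⟩ := c2_ker _ h1
  have hwc : w ∈ Cyc ℤ X n := by
    rcases n with _ | m
    · exact Submodule.mem_top
    · show bdR ℤ X m w = 0
      have h2 : (2:ℤ) • bdR ℤ X m w = 0 := by
        rw [← map_smul, ← hw, bdR_int, bdR_int]
        exact sbd_sbd m y₀
      exact (smul_eq_zero.1 h2).resolve_left two_ne_zero
  obtain ⟨u, hu⟩ := h n w hwc ⟨y₀, hw⟩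
  refine ⟨y₀ - (2:ℤ) • u, ?_, ?_⟩
  · show bdR ℤ X n (y₀ - (2:ℤ) • u) = 0
    rw [map_sub, map_smul, hu, hw, sub_self]
  · rw [map_sub, map_zsmul, hy₀]
    have : (2:ℤ) • cc c2 u = 0 := by
      ext t
      rw [Finsupp.smul_apply, zsmul_eq_mul]
      have : ((2:ℤ) : ZMod 2) = 0 := by decide
      rw [this, zero_mul]
      rfl
    rw [this, sub_zero]

lemma descent {X : Type} [TopologicalSpace X] (h : NT2 X) {n k : ℕ} (y : Fin k → (Sing X n →₀ ℤ))
    (hy : ∀ i, y i ∈ Cyc ℤ X n) : ∀ (N : ℕ) (c : Fin k → ℤ), ∑ i, (c i).natAbs ≤ N → c ≠ 0 →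
    ∑ i, c i • y i ∈ Bdr ℤ X n → ∃ c' : Fin k → ℤ, (∃ i, Odd (c' i)) ∧
      ∑ i, c' i • y i ∈ Bdr ℤ X n := by
  intro N
  induction N with
  | zero =>
    intro c hc hc0 _
    exfalso
    apply hc0
    funext i
    have h1 : ∑ i, (c i).natAbs = 0 := Nat.le_zero.1 hc
    have h2 := (Finset.sum_eq_zero_iff.1 h1) i (Finset.mem_univ i)
    simpa using h2
  | succ N ih =>
    intro c hc hc0 hb
    by_cases hodd : ∃ i, Odd (c i)
    · exact ⟨c, hodd, hb⟩
    · push Not at hodd
      have hev : ∀ i, ∃ a, c i = 2 * a := by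
        intro i
        have := (Int.not_odd_iff_even.1 (hodd i))
        obtain ⟨a, ha⟩ := this
        exact ⟨a, by omega⟩
      choose c' hc' using hev
      have hne : c' ≠ 0 := by
        intro h0
        apply hc0
        funext i
        rw [hc' i, h0]
        simp
      have hsum : ∑ i, (c i).natAbs = 2 * ∑ i, (c' i).natAbs := by
        rw [Finset.mul_sum]
        apply Finset.sum_congr rfl
        intro i _
        rw [hc' i]
        omega
      have hpos : 0 < ∑ i, (c' i).natAbs := by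
        rw [Nat.pos_iff_ne_zero]
        intro h0
        apply hne
        funext i
        have h2 := (Finset.sum_eq_zero_iff.1 h0) i (Finset.mem_univ i)
        simpa using h2
      have h2 : (2:ℤ) • ∑ i, c' i • y i ∈ Bdr ℤ X n := by
        rw [Finset.smul_sum]
        convert hb using 1
        apply Finset.sum_congr rfl
        intro i _
        rw [smul_smul, ← hc' i]
      exact ih c' (by omega) hne
        (h n _ (Submodule.sum_mem _ fun i _ => Submodule.smul_mem _ _ (hy i)) h2)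

lemma denom {T : Type} (x : T →₀ ℚ) : ∃ N : ℤ, N ≠ 0 ∧ ∃ y : T →₀ ℤ,
    cc (Int.castAddHom ℚ) y = N • x := by
  induction x using Finsupp.induction_linear with
  | zero => exact ⟨1, one_ne_zero, 0, by simp⟩
  | add f g hf hg =>
    obtain ⟨N, hN, y, hy⟩ := hf
    obtain ⟨M, hM, z, hz⟩ := hg
    refine ⟨N * M, mul_ne_zero hN hM, M • y + N • z, ?_⟩
    rw [map_add, map_zsmul, map_zsmul, hy, hz, smul_add, smul_smul, smul_smul, mul_comm M N]
  | single t q =>
    refine ⟨q.den, by exact_mod_cast q.den_ne_zero, single t q.num, ?_⟩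
    rw [cc_single, Finsupp.smul_single]
    congr 1
    rw [zsmul_eq_mul]
    show (q.num : ℚ) = _
    rw [mul_comm]
    push_cast
    exact (Rat.mul_den_eq_num q).symm

lemma relation {X : Type} [TopologicalSpace X] {n k : ℕ} (y : Fin k → (Sing X n →₀ ℤ))
    (g : Fin k → ℝ) (b : Sing X (n + 1) →₀ ℝ)
    (hb : bdR ℝ X n b = ∑ i, g i • cc (Int.castAddHom ℝ) (y i)) (j : Fin k) (hj : g j ≠ 0) :
    ∃ c : Fin k → ℤ, c ≠ 0 ∧ ∑ i, c i • y i ∈ Bdr ℤ X n := by
  obtain ⟨l, hl⟩ : ∃ l : Module.Dual ℚ ℝ, l (g j) ≠ 0 := by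
    by_contra h
    push Not at h
    exact hj ((Module.forall_dual_apply_eq_zero_iff ℚ (g j)).1 h)
  have h1 : bdR ℚ X n (cc l.toAddMonoidHom b) = ∑ i, l (g i) • cc (Int.castAddHom ℚ) (y i) := by
    rw [bd_cc, hb, map_sum]
    apply Finset.sum_congr rfl
    intro i _
    ext t
    rw [cc_apply, Finsupp.smul_apply, Finsupp.smul_apply, cc_apply, cc_apply]
    show l (g i * ((y i t : ℤ) : ℝ)) = l (g i) * ((y i t : ℤ) : ℚ)
    rw [mul_comm, ← zsmul_eq_mul, map_zsmul, zsmul_eq_mul, mul_comm]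
  obtain ⟨N₁, hN₁, b₁, hb₁⟩ := denom (cc l.toAddMonoidHom b)
  obtain ⟨N₂, hN₂, c₂, hc₂⟩ := denom (Finsupp.equivFunOnFinite.symm (fun i => l (g i)))
  have hc₂' : ∀ i, ((c₂ i : ℤ) : ℚ) = N₂ * l (g i) := by
    intro i
    have := DFunLike.congr_fun hc₂ i
    rw [cc_apply, Finsupp.smul_apply, zsmul_eq_mul] at this
    exact this
  refine ⟨fun i => N₁ * c₂ i, ?_, N₂ • b₁, ?_⟩
  · intro h0
    have h2 := congrFun h0 j
    have h3 : N₁ * c₂ j = 0 := h2
    rcases mul_eq_zero.1 h3 with h4 | h4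
    · exact hN₁ h4
    · have h5 := hc₂' j
      rw [h4, Int.cast_zero] at h5
      rcases mul_eq_zero.1 h5.symm with h6 | h6
      · exact hN₂ (by exact_mod_cast h6)
      · exact hl h6
  · have hinj : Function.Injective (cc (T := Sing X n) (Int.castAddHom ℚ)) := by
      intro x x' hxx
      ext t
      have := DFunLike.congr_fun hxx t
      rw [cc_apply, cc_apply] at this
      exact Int.cast_injective (α := ℚ) this
    apply hinj
    rw [← bd_cc, map_zsmul, hb₁, map_zsmul, map_zsmul, h1, map_sum, Finset.smul_sum, Finset.smul_sum]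
    apply Finset.sum_congr rfl
    intro i _
    ext t
    rw [map_zsmul]
    simp only [Finsupp.smul_apply, zsmul_eq_mul, smul_eq_mul]
    push_cast
    rw [hc₂' i]
    ring

theorem main : S_TW := by
  intro X _ n h hfin
  classical
  by_cases hf : Module.Finite (ZMod 2) (HX (ZMod 2) X n)
  swap
  · rw [Module.finrank_of_not_finite hf]
    exact Nat.zero_le _
  let B := Module.finBasis (ZMod 2) (HX (ZMod 2) X n)
  have hrep : ∀ i, ∃ z : ↥(Cyc (ZMod 2) X n), Submodule.Quotient.mk z = B i := fun i =>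
    Submodule.Quotient.mk_surjective _ (B i)
  choose z hz using hrep
  have hlift : ∀ i, ∃ y ∈ Cyc ℤ X n, cc c2 y = (z i : Sing X n →₀ ZMod 2) := fun i =>
    lift_cycle h n _ (z i).2
  choose y hyc hyz using hlift
  have hyR : ∀ i, cc (Int.castAddHom ℝ) (y i) ∈ Cyc ℝ X n := by
    intro i
    have h1 := hyc i
    rcases n with _ | n
    · exact Submodule.mem_top
    · have h2 : bdR ℤ X n (y i) = 0 := h1
      show bdR ℝ X n _ = 0
      rw [bd_cc, h2, map_zero]
  let Y : Fin (Module.finrank (ZMod 2) (HX (ZMod 2) X n)) → HX ℝ X n := fun i =>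
    Submodule.Quotient.mk ⟨cc (Int.castAddHom ℝ) (y i), hyR i⟩
  have hY : LinearIndependent ℝ Y := by
    rw [Fintype.linearIndependent_iff]
    intro g hg j
    by_contra hj
    have h1 : (Submodule.Quotient.mk (∑ i, g i • (⟨cc (Int.castAddHom ℝ) (y i), hyR i⟩ :
        ↥(Cyc ℝ X n))) : HX ℝ X n) = 0 := by
      rw [← hg]
      show Submodule.mkQ _ _ = _
      rw [map_sum]
      apply Finset.sum_congr rfl
      intro i _
      rw [map_smul]
      rfl
    rw [Submodule.Quotient.mk_eq_zero] at h1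
    obtain ⟨b, hb⟩ := h1
    have hb' : bdR ℝ X n b = ∑ i, g i • cc (Int.castAddHom ℝ) (y i) := by
      rw [hb]
      simp
    obtain ⟨c, hc0, hcb⟩ := relation y g b hb' j hj
    obtain ⟨c', ⟨i₀, hi₀⟩, hb'⟩ := descent h y hyc _ c le_rfl hc0 hcb
    obtain ⟨b'', hb''⟩ := hb'
    have h3 : ∑ i, ((c' i : ℤ) : ZMod 2) • B i = 0 := by
      have h4 : (Submodule.Quotient.mk (∑ i, ((c' i : ℤ) : ZMod 2) • z i) : HX (ZMod 2) X n) = 0 := by
        rw [Submodule.Quotient.mk_eq_zero]
        refine ⟨cc c2 b'', ?_⟩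
        rw [bd_cc, hb'', map_sum]
        simp only [Submodule.subtype_apply, AddSubmonoidClass.coe_finsetSum, Submodule.coe_smul]
        apply Finset.sum_congr rfl
        intro i _
        rw [map_zsmul, hyz i]
        ext t
        simp
      rw [← h4]
      symm
      show Submodule.mkQ _ _ = _
      rw [map_sum]
      apply Finset.sum_congr rfl
      intro i _
      rw [map_smul, ← hz i]
      rfl
    have h5 := Fintype.linearIndependent_iff.1 B.linearIndependent _ h3 i₀
    rw [ZMod.intCast_zmod_eq_zero_iff_dvd] at h5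
    obtain ⟨a, ha⟩ := hi₀
    obtain ⟨d, hd⟩ := h5
    push_cast at hd
    omega
  have := hY.fintype_card_le_finrank
  rwa [Fintype.card_fin] at this

end Pool.Agent.W138.NT.TW
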